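import Pool.Agent.H74.TQ.Stmts

/-!
# Two queries, module FOLDS: folds, maps, concatenations with the oracle
-/

set_option autoImplicit false

namespace Pool.TQ

open TMLib Polynomial

namespace FOLDS

variable {α β γ σ : Type} [Enc α] [Enc β] [Enc γ] [Enc σ]

omit [Enc α] [Enc β] [Enc σ] in
lemma foldStep_eq (f : α → σ → β → σ) (d : β) (s : α × σ × List β) :
    PTime.foldStep f s = bif s.2.2.isEmpty then s else
      (s.1, f s.1 s.2.1 (s.2.2.head?.getD d), s.2.2.tail) := by
  obtain ⟨a, s, l⟩ := s
  cases l <;> rfl

lemma foldl (K : Calc) {f : α → σ → β → σ} {init : α → σ} {l : α → List β}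
    (hf : FPNP (fun p : α × σ × β => f p.1 p.2.1 p.2.2)) (hi : FPNP init) (hl : FPNP l)
    {h : α → ℕ} (hh : PB h) (hB : ∀ a l', l' <+: l a → sz (l'.foldl (f a) (init a)) ≤ h a) :
    FPNP (fun a => (l a).foldl (f a) (init a)) := by
  rcases isEmpty_or_nonempty β with hβ | hβ
  · refine hi.congr fun a => ?_
    have : l a = [] := by
      cases l a with
      | nil => rfl
      | cons b t => exact (hβ.false b).elim
    rw [this]
    rfl
  · obtain ⟨d⟩ := hβ
    obtain ⟨B, hB'⟩ := hl.size
    have hstep : FPNP (PTime.foldStep f) := by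
      refine (K.cond (c := fun s : α × σ × List β => s.2.2.isEmpty) (FPNP.of_ptime (by fun_prop))
        (FPNP.of_ptime PTime.id) ?_).congr (foldStep_eq f d)
      refine K.pair (FPNP.of_ptime (by fun_prop)) (K.pair ?_ (FPNP.of_ptime (by fun_prop)))
      exact K.compp (g := fun p : α × σ × β => f p.1 p.2.1 p.2.2)
        (f := fun s : α × σ × List β => (s.1, s.2.1, s.2.2.head?.getD d)) hf (by fun_prop)
    have hs : FPNP (fun a => (a, init a, l a)) :=
      K.pair (FPNP.of_ptime PTime.id) (K.pair hi hl)
    have hn : PTime (fun a : α => B.eval (sz a)) := by fun_prop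
    have hb : PB (fun a => 2 + sz a + h a + sz (l a)) :=
      (((PB.const 2).add PB.sz_self).add hh).add hl.pb
    have := K.iter hstep hs hn hb (fun a i hi => by
      rw [PTime.foldStep_iterate]
      have h1 := hB a ((l a).take i) (List.take_prefix _ _)
      have h2 := PTime.sz_drop_le (l a) i
      simp only [sz_pair]
      omega)
    refine (K.fst (K.snd this)).congr fun a => ?_
    rw [PTime.foldStep_iterate, List.take_of_length_le]
    have h1 := length_lt_sz (l a)
    have h2 := hB' a
    omega

lemma flatMap (K : Calc) {l : α → List β} {g : α → β → List γ} (hl : FPNP l)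
    (hg : FPNP fun p : α × β => g p.1 p.2) : FPNP (fun x => (l x).flatMap (g x)) := by
  have e : ∀ (a : α) (l : List β) (acc : List γ),
      l.foldl (fun acc b => acc ++ g a b) acc = acc ++ l.flatMap (g a) := by
    intro a l
    induction l with
    | nil => simp
    | cons b l ih => intro acc; simp [ih]
  obtain ⟨B, hB⟩ := hg.size
  have hf : FPNP (fun p : α × List γ × β => p.2.1 ++ g p.1 p.2.2) :=
    K.pcomp (g := fun q : List γ × List γ => q.1 ++ q.2) (by fun_prop)
      (K.pair (FPNP.of_ptime (f := fun p : α × List γ × β => p.2.1) (by fun_prop))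
        (K.compp (g := fun p : α × β => g p.1 p.2) (f := fun p : α × List γ × β => (p.1, p.2.2))
          hg (by fun_prop)))
  have := foldl K (f := fun a acc b => acc ++ g a b) (init := fun _ : α => ([] : List γ)) (l := l)
    hf (FPNP.const []) hl
    (h := fun a => 1 + sz (l a) * B.eval (1 + sz a + sz (l a)))
    ((PB.const 1).add (hl.pb.mul ((((PB.const 1).add PB.sz_self).add hl.pb).poly B)))
    (fun a l' hl' => by
      rw [e, List.nil_append]
      refine (PTime.sz_flatMap_le l' (g a) (B.eval (1 + sz a + sz (l a))) fun b hb => ?_).trans ?_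
      · refine (hB (a, b)).trans (eval_mono B ?_)
        have := sz_le_of_mem (hl'.subset hb)
        simp only [sz_pair]
        omega
      · have h1 : l'.length ≤ sz (l a) := by
          have := length_lt_sz (l a)
          have := hl'.length_le
          omega
        have := Nat.mul_le_mul_right (B.eval (1 + sz a + sz (l a))) h1
        omega)
  exact this.congr fun a => by rw [e, List.nil_append]

lemma map (K : Calc) {l : α → List β} {g : α → β → γ} (hl : FPNP l)
    (hg : FPNP fun p : α × β => g p.1 p.2) : FPNP (fun x => (l x).map (g x)) := by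
  refine (flatMap K (g := fun x b => [g x b]) hl
    (K.pcomp (g := fun c : γ => [c]) (PTime.cons PTime.id (PTime.const [])) hg)).congr fun x => ?_
  induction l x with
  | nil => rfl
  | cons b l ih => simp [ih]

lemma all (K : Calc) {l : α → List β} {g : α → β → Bool} (hl : FPNP l)
    (hg : FPNP fun p : α × β => g p.1 p.2) : FPNP (fun x => (l x).all (g x)) := by
  refine (K.pcomp (g := fun s : List Bool => s.all fun b => b)
    (PTime.all (l := fun s : List Bool => s) (g := fun _ b => b) PTime.id (PTime.snd PTime.id))
    (map K hl hg)).congr fun x => ?_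
  induction l x with
  | nil => rfl
  | cons b l ih => simp [ih]

end FOLDS

/-- folds, maps, filters -/
theorem folds : S_FOLDS := fun K =>
  { foldl := fun hf hi hl _ hh hB => FOLDS.foldl K hf hi hl hh hB
    map := fun hl hg => FOLDS.map K hl hg
    flatMap := fun hl hg => FOLDS.flatMap K hl hg
    all := fun hl hg => FOLDS.all K hl hg }

end Pool.TQ
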